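import Pool.Agent.U68.TU.Stm
import Pool.Agent.N864.RC.Pnt
import Pool.Agent.N603.RC.RC3
import Pool.Agent.N615.RC.RC6
import Pool.Agent.Y772.HG.Sgn

/-!
# Project TU (helper68), package DIRG: Dirichlet's theorem for the narrow ray classes of a number field
-/

set_option autoImplicit false
set_option linter.unusedSectionVars false
set_option maxHeartbeats 4000000
set_option synthInstance.maxHeartbeats 400000

namespace Pool.Agent.U488.TU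

open NumberField Finset Filter Topology
open Pool.Agent.Y773 (TPos cc)
open Pool.Agent.Y773.G (IsModChar rl sg)
open Pool.Agent.Y773.IQ (T1 T1_cop pi1 pi1_coe ofM' ofM'_pos ofM'_supp exists_rep cls_card_le cop_one
  ne_zero_of_cop exists_mem_one)
open Pool.Agent.Y767 (Mq Mq_cop Mq_ne_bot Mq_cancel Cls cls cls_eq cls_pi cls_of_mul cls_div tpos_one tpos_mul)
open Pool.Agent.N603.RC (coe expand enum)

section grp

variable {K : Type} [Field K] [NumberField K] {𝔮 : Ideal (𝓞 K)}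

/-- totally positive integers congruent to one -/
def TP1 (_h : 𝔮 ≠ ⊤) : Submonoid (𝓞 K) where
  carrier := {x | x - 1 ∈ 𝔮 ∧ TPos K x}
  mul_mem' {x y} hx hy := ⟨by
    have : x * y - 1 = (x - 1) * y + (y - 1) := by ring
    rw [this]
    exact add_mem (Ideal.mul_mem_right _ _ hx.1) hy.1, tpos_mul hx.2 hy.2⟩
  one_mem' := ⟨by rw [sub_self]; exact zero_mem _, tpos_one⟩

lemma TP1_cop {h : 𝔮 ≠ ⊤} (x : TP1 h) : IsCoprime (Ideal.span {(x : 𝓞 K)}) 𝔮 :=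
  cop_one x.2.1

/-- the principal ideals generated by totally positive integers congruent to one -/
def pp (h : 𝔮 ≠ ⊤) : TP1 h →* Mq 𝔮 where
  toFun x := ⟨Ideal.span {(x : 𝓞 K)}, TP1_cop x⟩
  map_one' := by
    apply Subtype.ext
    change Ideal.span {(1 : 𝓞 K)} = 1
    rw [Ideal.span_singleton_one, Ideal.one_eq_top]
  map_mul' x y := by
    apply Subtype.ext
    change Ideal.span {(x : 𝓞 K) * (y : 𝓞 K)} = _
    rw [← Ideal.span_singleton_mul_span_singleton]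
    rfl

lemma pp_coe {h : 𝔮 ≠ ⊤} (x : TP1 h) : ((pp h x : Mq 𝔮) : Ideal (𝓞 K)) =
    Ideal.span {(x : 𝓞 K)} := rfl

lemma tpos_sq {x : 𝓞 K} (hx : x ≠ 0) : TPos K (x * x) := by
  intro σ
  have h1 : ((x * x : 𝓞 K) : K) = (x : K) * (x : K) := map_mul (algebraMap (𝓞 K) K) x x
  rw [h1, map_mul]
  have h2 : σ (x : K) ≠ 0 := by
    rw [Ne, map_eq_zero]
    exact RingOfIntegers.coe_ne_zero_iff.2 hx
  exact mul_self_pos.2 h2

lemma exists_compl' (htop : 𝔮 ≠ ⊤) (𝔟 : Mq 𝔮) : ∃ 𝔠 : Mq 𝔮, cls (pp htop) 𝔟 * cls (pp htop) 𝔠 = 1 := by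
  obtain ⟨x, 𝔠, h1, h2, h3⟩ := exists_mem_one (Mq_cop 𝔟)
  have hx0 : x ≠ 0 := ne_zero_of_cop htop (cop_one h1)
  have hx1 : x * x - 1 ∈ 𝔮 := by
    have : x * x - 1 = (x - 1) * x + (x - 1) := by ring
    rw [this]
    exact add_mem (Ideal.mul_mem_right _ _ h1) h1
  refine ⟨⟨𝔠, h3⟩ * (𝔟 * ⟨𝔠, h3⟩), ?_⟩
  rw [← map_mul, ← cls_pi (pp htop) ⟨x * x, hx1, tpos_sq hx0⟩]
  congr 1
  apply Subtype.ext
  rw [pp_coe]
  change (𝔟 : Ideal (𝓞 K)) * (𝔠 * ((𝔟 : Ideal (𝓞 K)) * 𝔠)) = Ideal.span {x * x}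
  rw [← Ideal.span_singleton_mul_span_singleton, h2]
  ring

lemma exists_rep' (htop : 𝔮 ≠ ⊤) (c : Cls (pp htop)) : ∃ 𝔞 : Mq 𝔮, cls (pp htop) 𝔞 = c := by
  obtain ⟨a, b, hab⟩ := cls_div (pp htop) c
  obtain ⟨𝔠, h⟩ := exists_compl' htop b
  refine ⟨a * 𝔠, ?_⟩
  rw [map_mul, ← hab, mul_assoc, h, mul_one]

theorem fin_cls (hbot : 𝔮 ≠ ⊥) (htop : 𝔮 ≠ ⊤) : Finite (Cls (pp htop)) := by
  classical
  have hfin := (cls_card_le hbot htop).1
  have := Mq_cancel htop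
  choose 𝔞 h𝔞 using exists_rep' htop
  choose 𝔟 h𝔟 using exists_rep htop
  have key : ∀ c : Cls (pp htop), ∃ x y : T1 htop, pi1 htop x * 𝔞 c = pi1 htop y * 𝔟 (cls (pi1 htop) (𝔞 c)) :=
    fun c => cls_eq (h𝔟 _).symm
  choose x y hxy using key
  have hx0 : ∀ c, ((x c : T1 htop) : 𝓞 K) ≠ 0 := fun c => ne_zero_of_cop htop (T1_cop (x c))
  have hy0 : ∀ c, ((y c : T1 htop) : 𝓞 K) ≠ 0 := fun c => ne_zero_of_cop htop (T1_cop (y c))
  refine Finite.of_injective (fun c => (cls (pi1 htop) (𝔞 c),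
    fun w : InfinitePlace K => decide (0 < rl w (((x c : 𝓞 K) * (y c : 𝓞 K) : 𝓞 K) : K)))) ?_
  intro c c' h
  obtain ⟨h1, h2⟩ := Prod.ext_iff.mp h
  have h1' : cls (pi1 htop) (𝔞 c) = cls (pi1 htop) (𝔞 c') := h1
  have h2' : ∀ w : InfinitePlace K, (0 < rl w (((x c : 𝓞 K) * (y c : 𝓞 K) : 𝓞 K) : K)) ↔
      (0 < rl w (((x c' : 𝓞 K) * (y c' : 𝓞 K) : 𝓞 K) : K)) := by
    intro w
    have := congrFun h2 w
    simpa using this
  have e1 := congrArg Subtype.val (hxy c)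
  have e2 := congrArg Subtype.val (hxy c')
  rw [Submonoid.coe_mul, Submonoid.coe_mul, pi1_coe, pi1_coe] at e1 e2
  rw [← h1'] at e2
  rw [← h𝔞 c, ← h𝔞 c']
  -- the two totally positive numbers
  have ha0 : (x c : 𝓞 K) * (y c' : 𝓞 K) ≠ 0 := mul_ne_zero (hx0 c) (hy0 c')
  have hb0 : ((x c' : 𝓞 K) * (y c : 𝓞 K)) * ((x c : 𝓞 K) * (y c' : 𝓞 K)) ≠ 0 :=
    mul_ne_zero (mul_ne_zero (hx0 c') (hy0 c)) ha0
  have ha1 : ((x c : 𝓞 K) * (y c' : 𝓞 K)) * ((x c : 𝓞 K) * (y c' : 𝓞 K)) - 1 ∈ 𝔮 :=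
    ((x c * y c') * (x c * y c')).2
  have hb1 : ((x c' : 𝓞 K) * (y c : 𝓞 K)) * ((x c : 𝓞 K) * (y c' : 𝓞 K)) - 1 ∈ 𝔮 :=
    ((x c' * y c) * (x c * y c')).2
  have hb2 : TPos K (((x c' : 𝓞 K) * (y c : 𝓞 K)) * ((x c : 𝓞 K) * (y c' : 𝓞 K))) := by
    rw [Pool.Agent.Y772.G.tpos_iff hb0]
    intro w
    have e3 : ((((x c' : 𝓞 K) * (y c : 𝓞 K)) * ((x c : 𝓞 K) * (y c' : 𝓞 K)) : 𝓞 K) : K) =
        (((x c : 𝓞 K) * (y c : 𝓞 K) : 𝓞 K) : K) * (((x c' : 𝓞 K) * (y c' : 𝓞 K) : 𝓞 K) : K) := by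
      rw [← map_mul]
      congr 1
      ring
    rw [e3, map_mul]
    have h3 : rl w (((x c : 𝓞 K) * (y c : 𝓞 K) : 𝓞 K) : K) ≠ 0 :=
      Pool.Agent.Y772.G.rl_ne (RingOfIntegers.coe_ne_zero_iff.2 (mul_ne_zero (hx0 c) (hy0 c)))
    have h4 : rl w (((x c' : 𝓞 K) * (y c' : 𝓞 K) : 𝓞 K) : K) ≠ 0 :=
      Pool.Agent.Y772.G.rl_ne (RingOfIntegers.coe_ne_zero_iff.2 (mul_ne_zero (hx0 c') (hy0 c')))
    rcases lt_or_gt_of_ne h3 with h5 | h5
    · have h6 : rl w (((x c' : 𝓞 K) * (y c' : 𝓞 K) : 𝓞 K) : K) < 0 := by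
        refine lt_of_le_of_ne (not_lt.1 fun h7 => ?_) h4
        exact absurd ((h2' w).2 h7) (not_lt.2 h5.le)
      exact mul_pos_of_neg_of_neg h5 h6
    · exact mul_pos h5 ((h2' w).1 h5)
  refine cls_of_mul (π := pp htop)
    (a := ⟨((x c : 𝓞 K) * (y c' : 𝓞 K)) * ((x c : 𝓞 K) * (y c' : 𝓞 K)), ha1, tpos_sq ha0⟩)
    (b := ⟨((x c' : 𝓞 K) * (y c : 𝓞 K)) * ((x c : 𝓞 K) * (y c' : 𝓞 K)), hb1, hb2⟩) ?_
  apply Subtype.ext
  rw [Submonoid.coe_mul, Submonoid.coe_mul, pp_coe, pp_coe]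
  change Ideal.span {((x c : 𝓞 K) * (y c' : 𝓞 K)) * ((x c : 𝓞 K) * (y c' : 𝓞 K))} * (𝔞 c : Ideal (𝓞 K)) =
    Ideal.span {((x c' : 𝓞 K) * (y c : 𝓞 K)) * ((x c : 𝓞 K) * (y c' : 𝓞 K))} * (𝔞 c' : Ideal (𝓞 K))
  simp only [← Ideal.span_singleton_mul_span_singleton]
  calc Ideal.span {(x c : 𝓞 K)} * Ideal.span {(y c' : 𝓞 K)} *
        (Ideal.span {(x c : 𝓞 K)} * Ideal.span {(y c' : 𝓞 K)}) * (𝔞 c : Ideal (𝓞 K))
      = Ideal.span {(x c : 𝓞 K)} * Ideal.span {(y c' : 𝓞 K)} * Ideal.span {(y c' : 𝓞 K)} *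
        (Ideal.span {(x c : 𝓞 K)} * (𝔞 c : Ideal (𝓞 K))) := by ring
    _ = Ideal.span {(x c : 𝓞 K)} * Ideal.span {(y c' : 𝓞 K)} * Ideal.span {(y c : 𝓞 K)} *
        (Ideal.span {(y c' : 𝓞 K)} * (𝔟 (cls (pi1 htop) (𝔞 c)) : Ideal (𝓞 K))) := by rw [e1]; ring
    _ = _ := by rw [← e2]; ring

/-- the character of the ideals -/
noncomputable def chi (htop : 𝔮 ≠ ⊤) (χ : Cls (pp htop) →* ℂˣ) : Ideal (𝓞 K) →*₀ ℂ :=
  ofM' htop (χ.comp (cls (pp htop)))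

lemma chi_pos (htop : 𝔮 ≠ ⊤) (χ : Cls (pp htop) →* ℂˣ) (𝔞 : Mq 𝔮) :
    chi htop χ (𝔞 : Ideal (𝓞 K)) = ((χ (cls (pp htop) 𝔞) : ℂˣ) : ℂ) :=
  ofM'_pos htop _ (Mq_cop 𝔞)

lemma chi_mod (hbot : 𝔮 ≠ ⊥) (htop : 𝔮 ≠ ⊤) (χ : Cls (pp htop) →* ℂˣ) :
    ∃ e : InfinitePlace K → ℕ, IsModChar 𝔮 e (chi htop χ) := by
  obtain ⟨e, h1, h2, h3⟩ := Pool.Agent.Y772.G.t_sig K 𝔮 (chi htop χ) hbot (by
    intro x _ hx1 hxt
    have h1 := chi_pos htop χ (pp htop ⟨x, hx1, hxt⟩)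
    rw [cls_pi, map_one, Units.val_one, pp_coe] at h1
    exact h1)
  exact ⟨e, hbot, htop, h1, h2, fun 𝔞 => ofM'_supp htop _ 𝔞, h3⟩

/-- every class contains a prime ideal of degree one -/
theorem exists_prime (hbot : 𝔮 ≠ ⊥) (htop : 𝔮 ≠ ⊤) (c : Cls (pp htop)) :
    ∃ 𝔭 : Mq 𝔮, (Ideal.absNorm (𝔭 : Ideal (𝓞 K))).Prime ∧ cls (pp htop) 𝔭 = c := by
  classical
  by_contra hcon
  push Not at hcon
  have hfin := fin_cls hbot htop
  let _ := Fintype.ofFinite (Cls (pp htop))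
  obtain ⟨n, e, he⟩ := enum (C := Cls (pp htop))
  let _ : Fintype (Cls (pp htop) →* ℂˣ) := Fintype.ofEquiv _ e
  choose rep hrep using exists_rep' htop
  set Φ : Cls (pp htop) → ℂ := fun d => if d = c then 1 else 0 with hΦ
  set a : Fin (n + 1) → ℂ := fun i => coe Φ (e i) with ha
  set η : Fin (n + 1) → (Ideal (𝓞 K) →*₀ ℂ) := fun i => chi htop (e i) with hη
  choose sgn hmod using fun i => chi_mod hbot htop (e i)
  have hcard : (Fintype.card (Cls (pp htop)) : ℂ) ≠ 0 := by exact_mod_cast Fintype.card_ne_zero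
  have ha0 : a 0 ≠ 0 := by
    rw [ha]
    simp only
    unfold coe
    rw [he]
    simp only [MonoidHom.one_apply, Units.val_one, mul_one]
    rw [hΦ, Finset.sum_ite_eq' univ c, if_pos (mem_univ c)]
    exact div_ne_zero one_ne_zero hcard
  have hsum : ∀ 𝔞 : Ideal (𝓞 K), ∑ i, a i * η i 𝔞 ≠ 0 → ∃ h : IsCoprime 𝔞 𝔮, cls (pp htop) ⟨𝔞, h⟩ = c := by
    intro 𝔞 hne
    by_cases h𝔞 : IsCoprime 𝔞 𝔮
    · refine ⟨h𝔞, ?_⟩
      by_contra hc
      apply hne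
      have h1 := expand Φ (cls (pp htop) ⟨𝔞, h𝔞⟩)
      have h2 : ∑ i, a i * η i 𝔞 = ∑ χ : Cls (pp htop) →* ℂˣ, coe Φ χ *
          ((χ (cls (pp htop) ⟨𝔞, h𝔞⟩) : ℂˣ) : ℂ) := by
        refine Fintype.sum_equiv e _ _ fun i => ?_
        have h3 := chi_pos htop (e i) ⟨𝔞, h𝔞⟩
        show coe Φ (e i) * chi htop (e i) 𝔞 = _
        rw [← h3]
      rw [h2, ← h1, hΦ]
      exact if_neg hc
    · exfalso
      apply hne
      refine Finset.sum_eq_zero fun i _ => ?_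
      have h3 : chi htop (e i) 𝔞 = 0 := by
        by_contra h4
        exact h𝔞 ((ofM'_supp htop _ 𝔞).mp h4)
      show coe Φ (e i) * chi htop (e i) 𝔞 = 0
      rw [h3, mul_zero]
  -- the sums of the characters
  have k1 : ∀ i, Tendsto (fun x : ℝ => (∑ n ∈ Icc 1 ⌊x⌋₊,
      (ArithmeticFunction.vonMangoldt n : ℂ) * cc (η i) n) / (x : ℂ)) atTop
      (𝓝 (if i = 0 then 1 else 0)) := by
    intro i
    obtain ⟨δ, -, d1, d2, d3⟩ := Pool.Agent.N864.RC.rc1 K 𝔮 _ (η i) (hmod i)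
    by_cases hi : i = 0
    · rw [if_pos hi]
      have := d2 (by
        intro 𝔞 h𝔞
        have h1 := chi_pos htop (e i) ⟨𝔞, h𝔞⟩
        rw [hi, he, MonoidHom.one_apply, Units.val_one] at h1
        rw [hη]
        simp only
        rw [hi, he]
        exact h1)
      rw [this, Complex.ofReal_one] at d3
      exact d3
    · rw [if_neg hi]
      have := d1 (by
        have hne : e i ≠ 1 := by
          intro h
          apply hi
          apply e.injective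
          rw [h, he]
        obtain ⟨d, hd⟩ : ∃ d, e i d ≠ 1 := by
          by_contra hcon'
          push Not at hcon'
          exact hne (MonoidHom.ext hcon')
        refine ⟨(rep d : Ideal (𝓞 K)), Mq_cop (rep d), ?_⟩
        show chi htop (e i) _ ≠ 1
        rw [chi_pos htop (e i) (rep d), hrep]
        intro h
        exact hd (Units.ext h))
      rw [this, Complex.ofReal_zero] at d3
      exact d3
  set g : ℕ → ℂ := fun n => ∑ i, a i * ((ArithmeticFunction.vonMangoldt n : ℂ) * cc (η i) n)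
    with hg
  have k2 : Tendsto (fun x : ℝ => (∑ n ∈ Icc 1 ⌊x⌋₊, g n) / (x : ℂ)) atTop (𝓝 (a 0)) := by
    have h4 := tendsto_finsetSum (univ : Finset (Fin (n + 1)))
      fun i _ => (k1 i).const_mul (a i)
    have h5 : ∑ i, a i * (if i = 0 then (1 : ℂ) else 0) = a 0 := by
      rw [sum_eq_single 0]
      · rw [if_pos rfl, mul_one]
      · intro i _ hi
        rw [if_neg hi, mul_zero]
      · intro h
        exact absurd (mem_univ _) h
    rw [h5] at h4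
    refine h4.congr fun x => ?_
    rw [hg]
    simp only
    rw [sum_comm, sum_div]
    refine sum_congr rfl fun i _ => ?_
    rw [← mul_sum, mul_div_assoc]
  have k3 : ∀ p : ℕ, p.Prime → ¬ p ∣ 1 → g p = 0 := by
    intro p hp _
    have hfin : {𝔭 : Ideal (𝓞 K) | Ideal.absNorm 𝔭 = p}.Finite :=
      Ideal.finite_setOfPred_absNorm_eq p
    rw [hg]
    simp only
    rw [ArithmeticFunction.vonMangoldt_apply_prime hp]
    have h5 : ∀ i, a i * ((Real.log p : ℂ) * cc (η i) p) =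
        (Real.log p : ℂ) * ∑ 𝔭 ∈ hfin.toFinset, a i * η i 𝔭 := by
      intro i
      rw [Pool.Agent.Y772.DK.cc_prime (η i) hp, finsum_mem_eq_finite_toFinset_sum _ hfin,
        ← mul_sum]
      ring
    rw [sum_congr rfl fun i _ => h5 i, ← mul_sum, sum_comm]
    have h6 : ∑ 𝔭 ∈ hfin.toFinset, ∑ i, a i * η i 𝔭 = 0 := by
      refine sum_eq_zero fun 𝔭 h𝔭 => ?_
      have h𝔭' : Ideal.absNorm 𝔭 = p := by simpa using h𝔭
      by_contra hne
      obtain ⟨h7, h8⟩ := hsum 𝔭 hne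
      exact hcon ⟨𝔭, h7⟩ (by
        change (Ideal.absNorm 𝔭).Prime
        rw [h𝔭']; exact hp) h8
    rw [h6, mul_zero]
  have k4 : ∀ n, ‖g n‖ ≤ (∑ i, ‖a i‖ * Module.finrank ℚ K) * ArithmeticFunction.vonMangoldt n := by
    intro n
    rw [sum_mul, hg]
    refine norm_sum_le_of_le _ fun i _ => ?_
    rw [norm_mul, norm_mul, Complex.norm_real,
      Real.norm_of_nonneg ArithmeticFunction.vonMangoldt_nonneg, mul_assoc]
    refine mul_le_mul_of_nonneg_left ?_ (norm_nonneg _)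
    rw [mul_comm]
    exact mul_le_mul_of_nonneg_right (Pool.Agent.Y772.DK.norm_cc_le (η i)
      (fun 𝔞 => Pool.Agent.Y772.G.mc_le (hmod i) 𝔞) n) ArithmeticFunction.vonMangoldt_nonneg
  have hC0 : 0 ≤ ∑ i, ‖a i‖ * Module.finrank ℚ K :=
    Finset.sum_nonneg fun i _ => mul_nonneg (norm_nonneg _) (Nat.cast_nonneg _)
  clear_value g
  have k6 : Tendsto (fun x : ℝ => (∑ n ∈ Icc 1 ⌊x⌋₊, g n) / (x : ℂ)) atTop (𝓝 0) :=
    Pool.Agent.N615.RC.tend_cmp (e := g) (M := 1) Nat.one_ne_zero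
      (C := ∑ i, ‖a i‖ * Module.finrank ℚ K) hC0 k3 k4
  exact ha0 (tendsto_nhds_unique k2 k6)

end grp

/-- Dirichlet's theorem modulo `N ≥ 2` -/
theorem dirg_aux (M : Type) [Field M] [NumberField M] (N : ℕ) (t : 𝓞 M) (hN : 2 ≤ N)
    (ht : (N : 𝓞 M) ∣ t - 1) : ∃ θ : 𝓞 M, (Ideal.span {θ}).IsPrime ∧
      (Ideal.absNorm (Ideal.span {θ})).Prime ∧
      (N : 𝓞 M) ∣ θ - 1 ∧ ∀ φ : M →+* ℝ, 0 < φ (t : M) ↔ 0 < φ (θ : M) := by
  set 𝔮 : Ideal (𝓞 M) := Ideal.span {(N : 𝓞 M)} with h𝔮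
  have hbot : 𝔮 ≠ ⊥ := by
    rw [h𝔮, ne_eq, Ideal.span_singleton_eq_bot]
    have : N ≠ 0 := by omega
    exact_mod_cast this
  have htop : 𝔮 ≠ ⊤ := by
    intro h
    have h2 : Ideal.absNorm 𝔮 = N ^ Module.finrank ℚ M := by
      rw [h𝔮, Ideal.absNorm_span_singleton]
      have h4 : (N : 𝓞 M) = algebraMap ℤ (𝓞 M) (N : ℤ) := by simp
      rw [h4, Algebra.norm_algebraMap, RingOfIntegers.rank, Int.natAbs_pow, Int.natAbs_natCast]
    rw [h, Ideal.absNorm_top] at h2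
    have h3 : 0 < Module.finrank ℚ M := Module.finrank_pos
    have h4 : 1 < N ^ Module.finrank ℚ M := Nat.one_lt_pow h3.ne' (by omega)
    omega
  have ht1 : t - 1 ∈ 𝔮 := Ideal.mem_span_singleton.2 ht
  have hcan := Mq_cancel htop
  obtain ⟨𝔭, hp, hc⟩ := exists_prime hbot htop (cls (pp htop) ⟨Ideal.span {t}, cop_one ht1⟩)
  obtain ⟨a, b, hab⟩ := cls_eq hc
  have h1 := congrArg Subtype.val hab
  rw [Submonoid.coe_mul, Submonoid.coe_mul, pp_coe, pp_coe] at h1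
  change Ideal.span {(a : 𝓞 M)} * (𝔭 : Ideal (𝓞 M)) = Ideal.span {(b : 𝓞 M)} * Ideal.span {t} at h1
  rw [Ideal.span_singleton_mul_span_singleton] at h1
  have ha0 : (a : 𝓞 M) ≠ 0 := ne_zero_of_cop htop (TP1_cop a)
  have h2 : (b : 𝓞 M) * t ∈ Ideal.span {(a : 𝓞 M)} := by
    have h3 : Ideal.span {(b : 𝓞 M) * t} ≤ Ideal.span {(a : 𝓞 M)} := by
      have h30 : Ideal.span {(a : 𝓞 M)} * (𝔭 : Ideal (𝓞 M)) ≤ Ideal.span {(a : 𝓞 M)} :=
        Ideal.mul_le_left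
      exact h1 ▸ h30
    exact h3 (Ideal.mem_span_singleton_self ((b : 𝓞 M) * t))
  obtain ⟨θ, hθ⟩ := Ideal.mem_span_singleton.mp h2
  have h4 : (𝔭 : Ideal (𝓞 M)) = Ideal.span {θ} := by
    apply mul_left_cancel₀ (a := Ideal.span {(a : 𝓞 M)})
    · rw [Ne, Ideal.zero_eq_bot, Ideal.span_singleton_eq_bot]
      exact ha0
    · rw [h1, Ideal.span_singleton_mul_span_singleton, hθ]
  refine ⟨θ, ?_, ?_, ?_, ?_⟩
  · apply Ideal.isPrime_of_irreducible_absNorm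
    rw [← h4]
    exact hp
  · rw [← h4]; exact hp
  · rw [← Ideal.mem_span_singleton]
    have e1 : θ - 1 = (b : 𝓞 M) * (t - 1) + ((b : 𝓞 M) - 1) - ((a : 𝓞 M) - 1) * θ := by
      linear_combination (-1 : 𝓞 M) * hθ
    rw [e1]
    exact sub_mem (add_mem (Ideal.mul_mem_left _ _ ht1) b.2.1) (Ideal.mul_mem_right _ _ a.2.1)
  · intro φ
    have e2 : φ ((b : 𝓞 M) : M) * φ (t : M) = φ ((a : 𝓞 M) : M) * φ (θ : M) := by
      have e3 : (((b : 𝓞 M) * t : 𝓞 M) : M) = ((b : 𝓞 M) : M) * (t : M) := map_mul (algebraMap (𝓞 M) M) _ _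
      have e4 : (((a : 𝓞 M) * θ : 𝓞 M) : M) = ((a : 𝓞 M) : M) * (θ : M) := map_mul (algebraMap (𝓞 M) M) _ _
      rw [← map_mul φ, ← map_mul φ, ← e3, ← e4, hθ]
    have hb := b.2.2 φ
    have ha := a.2.2 φ
    constructor
    · intro h
      have h5 := mul_pos hb h
      rw [e2] at h5
      exact (pos_iff_pos_of_mul_pos h5).mp ha
    · intro h
      have h5 := mul_pos ha h
      rw [← e2] at h5
      exact (pos_iff_pos_of_mul_pos h5).mp hb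

theorem t_DIRG : Pool.Agent.U68.TU.S_DIRG := by
  intro M _ _ N t hN ht0 _
  -- a large multiple of `t`
  have hfin : Finite (M →+* ℝ) := by
    refine Finite.of_injective (fun φ : M →+* ℝ => Complex.ofRealHom.comp φ) ?_
    intro φ ψ h
    ext x
    have := DFunLike.congr_fun h x
    simpa using this
  obtain ⟨k, hk⟩ : ∃ k : ℕ, ∀ φ : M →+* ℝ, φ (t : M) < 0 → 1 < (k : ℝ) * |φ (t : M)| := by
    let _ := Fintype.ofFinite (M →+* ℝ)
    have h1 : ∀ φ : M →+* ℝ, ∃ k : ℕ, 1 < (k : ℝ) * |φ (t : M)| := by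
      intro φ
      have h2 : 0 < |φ (t : M)| := by
        rw [abs_pos, Ne, map_eq_zero]
        exact RingOfIntegers.coe_ne_zero_iff.2 ht0
      obtain ⟨k, hk⟩ := exists_nat_gt (1 / |φ (t : M)|)
      refine ⟨k, ?_⟩
      rwa [div_lt_iff₀ h2] at hk
    choose k hk using h1
    refine ⟨∑ φ : M →+* ℝ, k φ, fun φ _ => lt_of_lt_of_le (hk φ) ?_⟩
    refine mul_le_mul_of_nonneg_right ?_ (abs_nonneg _)
    exact_mod_cast Finset.single_le_sum (f := k) (fun _ _ => Nat.zero_le _) (mem_univ φ)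
  obtain ⟨θ, h1, h2, h3, h4⟩ := dirg_aux M (2 * N) (1 + ((2 * N : ℕ) : 𝓞 M) * ((k : 𝓞 M) * t)) (by omega)
    ⟨(k : 𝓞 M) * t, by ring⟩
  refine ⟨θ, h1, h2, (Dvd.intro_left (2 : 𝓞 M) (by push_cast; rfl)).trans h3, fun φ => ?_⟩
  rw [← h4 φ]
  have e1 : φ ((1 + ((2 * N : ℕ) : 𝓞 M) * ((k : 𝓞 M) * t) : 𝓞 M) : M) =
      1 + (2 * N : ℝ) * ((k : ℝ) * φ (t : M)) := by
    have e3 : ((1 + ((2 * N : ℕ) : 𝓞 M) * ((k : 𝓞 M) * t) : 𝓞 M) : M) =
        1 + ((2 * N : ℕ) : M) * ((k : M) * (t : M)) := by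
      have e5 : (algebraMap (𝓞 M) M) (1 + ((2 * N : ℕ) : 𝓞 M) * ((k : 𝓞 M) * t)) =
          1 + ((2 * N : ℕ) : M) * ((k : M) * (algebraMap (𝓞 M) M) t) := by
        rw [map_add, map_mul, map_mul, map_one, map_natCast, map_natCast]
      exact e5
    rw [e3, map_add, map_mul, map_mul, map_one, map_natCast, map_natCast]
    push_cast
    ring
  rw [e1]
  have hN' : (1 : ℝ) ≤ N := by exact_mod_cast hN
  constructor
  · intro h
    have : 0 ≤ (2 * N : ℝ) * ((k : ℝ) * φ (t : M)) := by positivity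
    linarith
  · intro h
    by_contra h5
    have h6 : φ (t : M) ≠ 0 := by
      rw [Ne, map_eq_zero]
      exact RingOfIntegers.coe_ne_zero_iff.2 ht0
    have h7 : φ (t : M) < 0 := lt_of_le_of_ne (not_lt.1 h5) h6
    have h8 := hk φ h7
    rw [abs_of_neg h7] at h8
    have h9 : (k : ℝ) * φ (t : M) < -1 := by linarith
    nlinarith

end Pool.Agent.U488.TU
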